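import Pool.Agent.Helper19.SQ.GoalsC

/-!
Project SQ, packet EQV: equivariance of the functionals `phi`.
-/

set_option autoImplicit false

namespace Pool.Agent.Helper97.SQ

open Pool.Agent.Helper19.SQ

theorem eqv_exps {n : ℕ} (σ : Equiv.Perm (Fin n)) (s : (Fin n ⊕ Fin n) →₀ ℕ) (k : Fin n) :
    exps (Finsupp.mapDomain (Sum.map σ σ) s) (σ k) = exps s k := by
  have hinj : Function.Injective (Sum.map σ σ) := by
    rintro (a | a) (b | b) h
    · exact congrArg Sum.inl (σ.injective (Sum.inl.inj h))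
    · exact absurd h (by simp)
    · exact absurd h (by simp)
    · exact congrArg Sum.inr (σ.injective (Sum.inr.inj h))
  have h1 : Finsupp.mapDomain (Sum.map σ σ) s (Sum.inl (σ k)) = s (Sum.inl k) :=
    Finsupp.mapDomain_apply hinj s (Sum.inl k)
  have h2 : Finsupp.mapDomain (Sum.map σ σ) s (Sum.inr (σ k)) = s (Sum.inr k) :=
    Finsupp.mapDomain_apply hinj s (Sum.inr k)
  unfold exps
  rw [h1, h2]

theorem eqv_op {l n : ℕ} [NeZero l] {T : Type} [AddCommGroup T] [Module ℂ T] (C : Cnt l n T)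
    {d : ZMod l} {x : Fin n → ZMod l} (hx : ∀ k, x k ≠ d) (σ : Equiv.Perm (Fin n))
    (a b : Fin n → ℕ × ℕ) (h : ∀ k, b (σ k) = a k) : pOp C d (x ∘ σ) a = pOp C d x b := by
  unfold pOp
  have e : (fun k => C.e d ((x ∘ σ) k) (a k).1 ((a k).2 : ℤ))
      = (fun k => C.e d (x k) (b k).1 ((b k).2 : ℤ)) ∘ σ := by
    funext k
    simp only [Function.comp_apply, h k]
  rw [e]
  refine (Equiv.Perm.ofFn_comp_perm σ _).prod_eq' ?_
  rw [List.pairwise_ofFn]
  intro i j _
  exact C.com d _ d _ _ _ _ _ (Ne.symm (hx _)) (Ne.symm (hx _)) (hx _) (Ne.symm (hx _))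

theorem s_eqv : S_EQV := by
  intro l n _ T _ _ C d x hx lam τ σ P
  have key : phi C d (x ∘ σ) lam τ = (phi C d x lam τ) ∘ₗ (rn σ).toLinearMap := by
    refine (MvPolynomial.basisMonomials (Fin n ⊕ Fin n) ℂ).ext fun s => ?_
    rw [MvPolynomial.coe_basisMonomials, LinearMap.comp_apply, AlgHom.toLinearMap_apply,
      phi_monomial]
    unfold rn
    rw [MvPolynomial.rename_monomial, phi_monomial,
      eqv_op C hx σ (exps s) _ (fun k => eqv_exps σ s k)]
  rw [key]
  rfl

end Pool.Agent.Helper97.SQ
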