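import Pool.Agent.Helper4.SQ.GoalsR2

/-!
Project SQ, packet OPPF: the relations of the `pi_k` with `F[g]`, `E[g]`.
-/

set_option autoImplicit false
set_option linter.unusedSectionVars false

namespace Pool.Agent.Helper97.SQ

noncomputable section

open Matrix Pool.Agent.Helper19.SQ Pool.Agent.Helper34.SQ Pool.Agent.Helper41.SQ
  Pool.Agent.Helper4.SQ

variable {A : Type} [Ring A] [Algebra ℂ A] {ι : Type} [Fintype ι] [DecidableEq ι]

theorem oppf_vv_add (ε : A →ₐ[ℂ] Matrix ι ι A) (Z Z' : Matrix ι ι A) :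
    vv ε (Z + Z') = vv ε Z + vv ε Z' := by
  ext K I
  rw [Matrix.add_apply, vv_apply, vv_apply, vv_apply, ← Finset.sum_add_distrib]
  exact Finset.sum_congr rfl fun P _ => by rw [Matrix.add_apply, map_add, Matrix.add_apply]

theorem oppf_vv_smul (ε : A →ₐ[ℂ] Matrix ι ι A) (c : ℂ) (Z : Matrix ι ι A) :
    vv ε (c • Z) = c • vv ε Z := by
  ext K I
  rw [Matrix.smul_apply, vv_apply, vv_apply, Finset.smul_sum]
  exact Finset.sum_congr rfl fun P _ => by rw [Matrix.smul_apply, map_smul, Matrix.smul_apply]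

theorem oppf_Dq_add (q : ℂ) (f g : Polynomial ℂ) : Dq q (f + g) = Dq q f + Dq q g := by
  unfold Dq
  rw [Polynomial.add_comp, Polynomial.add_comp, mul_add]
  abel

theorem oppf_Dq_monomial {q : ℂ} (hq : q ≠ 0) (n : ℕ) (a : ℂ) :
    Dq q (Polynomial.monomial n a) = Polynomial.monomial n (-(a * (q ^ n - q⁻¹ ^ n) ^ 2)) := by
  unfold Dq
  rw [Polynomial.monomial_comp, Polynomial.monomial_comp, mul_pow, mul_pow, ← Polynomial.C_pow,
    ← Polynomial.C_pow, ← Polynomial.C_mul_X_pow_eq_monomial,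
    ← Polynomial.C_mul_X_pow_eq_monomial]
  have h1 : q ^ n * q⁻¹ ^ n = 1 := by rw [← mul_pow, mul_inv_cancel₀ hq, one_pow]
  have h2 : -(a * (q ^ n - q⁻¹ ^ n) ^ 2)
      = 2 * a - a * (q ^ 2) ^ n - a * (q⁻¹ ^ 2) ^ n := by
    have e1 : (q ^ 2) ^ n = q ^ n * q ^ n := by rw [← pow_mul, two_mul, pow_add]
    have e2 : (q⁻¹ ^ 2) ^ n = q⁻¹ ^ n * q⁻¹ ^ n := by rw [← pow_mul, two_mul, pow_add]
    rw [e1, e2]
    linear_combination (2 * a) * h1
  rw [h2]
  simp only [Polynomial.C_sub, Polynomial.C_mul]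
  ring

theorem oppf_pev_add (f g : Polynomial ℂ) (X : Matrix ι ι A) :
    pev (f + g) X = pev f X + pev g X := by
  unfold pev
  exact map_add _ _ _

theorem oppf_pev_mul (f g : Polynomial ℂ) (X : Matrix ι ι A) :
    pev (f * g) X = pev f X * pev g X := by
  unfold pev
  exact map_mul _ _ _

theorem oppf_pev_monomial (n : ℕ) (a : ℂ) (X : Matrix ι ι A) :
    pev (Polynomial.monomial n a) X = a • X ^ n := by
  unfold pev
  rw [Polynomial.aeval_monomial, Algebra.smul_def]

/-- `δ(π_f) = diagonal π_f + (Dq f)(X)`. -/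
theorem oppf_delta (hDPI : S_DPI) (C : Core0 A ι) {q : ℂ} (P : CoreQ C q) (f : Polynomial ℂ) :
    C.δ (pair f C.pi) = Matrix.diagonal (fun _ => pair f C.pi) + pev (Dq q f) C.X := by
  induction f using Polynomial.induction_on' with
  | add f g hf hg =>
    rw [pair_add, map_add, hf, hg, oppf_Dq_add, oppf_pev_add, ← Matrix.diagonal_add]
    abel
  | monomial n a =>
    rw [pair_monomial, map_smul, (hDPI A ι C q P n).1, oppf_Dq_monomial P.q_ne,
      oppf_pev_monomial, smul_sub, smul_smul, ← Matrix.diagonal_smul, neg_smul, sub_eq_add_neg]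
    rfl

/-- `ε(π_f) = diagonal π_f - vv ε ((Dq f)(X))`. -/
theorem oppf_eps (hDPI : S_DPI) (C : Core0 A ι) {q : ℂ} (P : CoreQ C q) (f : Polynomial ℂ) :
    C.ε (pair f C.pi) = Matrix.diagonal (fun _ => pair f C.pi) - vv C.ε (pev (Dq q f) C.X) := by
  induction f using Polynomial.induction_on' with
  | add f g hf hg =>
    rw [pair_add, map_add, hf, hg, oppf_Dq_add, oppf_pev_add, oppf_vv_add,
      ← Matrix.diagonal_add]
    abel
  | monomial n a =>
    rw [pair_monomial, map_smul, (hDPI A ι C q P n).2, oppf_Dq_monomial P.q_ne,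
      oppf_pev_monomial, oppf_vv_smul, smul_add, smul_smul, ← Matrix.diagonal_smul, neg_smul,
      sub_neg_eq_add]
    rfl

theorem oppf_trace_diag (z : A) (M : Matrix ι ι A) :
    Matrix.trace (Matrix.diagonal (fun _ => z) * M) = z * Matrix.trace M := by
  rw [Matrix.trace, Matrix.trace, Finset.mul_sum]
  exact Finset.sum_congr rfl fun i _ => by
    rw [Matrix.diag_apply, Matrix.diag_apply, Matrix.diagonal_mul]

theorem sOPPF (hDPI : S_DPI) (hDPV : S_DPV) (hDP2 : S_DP2) : S_OPPF := by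
  intro A _ _ ι _ _ C q P τ f g
  have hXδ : ∀ (h : Polynomial ℂ) (a : A), pev h C.X * C.δ a = C.δ a * pev h C.X :=
    fun h a => pev_comm (C.Xδ a) h
  have hdp := (hDP2 A ι C).1
  obtain ⟨v1, v2, _, _⟩ := hDPV A ι C.δ C.ε hdp
  constructor
  · ext x
    rw [LinearMap.sub_apply, MO_apply, FO_apply, FO_apply, FO_apply, MO_apply, map_mul,
      oppf_delta hDPI C P f, add_mul, add_mul, Matrix.trace_add, map_add]
    have e1 : Matrix.trace (Matrix.diagonal (fun _ => pair f C.pi) * C.δ x * pev g C.X)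
        = pair f C.pi * Matrix.trace (C.δ x * pev g C.X) := by
      rw [mul_assoc, oppf_trace_diag]
    have e2 : pev (Dq q f) C.X * C.δ x * pev g C.X = C.δ x * pev (Dq q f * g) C.X := by
      rw [hXδ, oppf_pev_mul, mul_assoc]
    rw [e1, e2]
    abel
  · ext x
    rw [LinearMap.sub_apply, MO_apply, EO_apply, EO_apply, EO_apply, MO_apply, map_mul C.ε,
      oppf_eps hDPI C P f, sub_mul, sub_mul, Matrix.trace_sub, map_sub]
    have e1 : Matrix.trace (Matrix.diagonal (fun _ => pair f C.pi) * C.ε x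
        * vv C.ε (pev g C.X)) = pair f C.pi * Matrix.trace (C.ε x * vv C.ε (pev g C.X)) := by
      rw [mul_assoc, oppf_trace_diag]
    have e2 : vv C.ε (pev (Dq q f) C.X) * C.ε x * vv C.ε (pev g C.X)
        = C.ε x * vv C.ε (pev (Dq q f * g) C.X) := by
      rw [v1 _ (fun a => hXδ _ a), mul_assoc, ← v2 _ (fun a => hXδ _ a), ← oppf_pev_mul,
        mul_comm g]
    rw [e1, e2]
    abel

end

end Pool.Agent.Helper97.SQ
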