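import Pool.Agent.Helper4.SQ.GoalsR

/-!
Packet SQR-SCX: `delta(X) = S X S`.
-/

set_option autoImplicit false

namespace Pool.Agent.Helper97.SQ

noncomputable section

open Matrix Pool.Agent.Helper19.SQ Pool.Agent.Helper34.SQ Pool.Agent.Helper41.SQ
  Pool.Agent.Helper4.SQ

theorem vy_eq (N : ℕ) (q : ℂ) (a r p t : Fin (N + 1)) :
    VYm N q (a, r) (p, t) = Scm N q (a, r) (t, p) := by
  simp only [VYm, Scm, Matrix.of_apply, Prod.mk.injEq]
  by_cases h1 : a = p
  · subst h1
    have h2 : ¬ ((a = t ∧ r = a) ∧ t < a) := by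
      rintro ⟨⟨h3, -⟩, h4⟩
      rw [h3] at h4
      exact lt_irrefl _ h4
    rw [if_pos rfl, if_neg h2, add_zero]
    by_cases h3 : r = t
    · rw [if_pos h3, if_pos (show a = a ∧ r = t from ⟨rfl, h3⟩)]
    · rw [if_neg h3, if_neg (fun h : a = a ∧ r = t => h3 h.2)]
  · rw [if_neg h1, if_neg (fun h : a = p ∧ r = t => h1 h.1), zero_add]
    by_cases h2 : a < p
    · rw [if_pos h2]
      by_cases h3 : r = p ∧ t = a
      · rw [if_pos h3, if_pos ⟨⟨h3.2.symm, h3.1⟩, by rw [h3.2]; exact h2⟩]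
      · rw [if_neg h3, if_neg (fun h => h3 ⟨h.1.2, h.1.1.symm⟩)]
    · rw [if_neg h2, if_neg (fun h => h2 (by rw [h.1.1]; exact h.2))]

theorem vl_eq (N : ℕ) (q : ℂ) (p t b s : Fin (N + 1)) :
    VLm N q (p, t) (b, s) = Scm N q (t, p) (b, s) := by
  simp only [VLm, Scm, Matrix.of_apply, Prod.mk.injEq]
  by_cases h1 : p = b
  · subst h1
    have h2 : ¬ ((t = p ∧ p = s) ∧ p < s) := by
      rintro ⟨⟨-, h3⟩, h4⟩
      rw [← h3] at h4
      exact lt_irrefl _ h4
    rw [if_pos rfl, if_neg h2, add_zero]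
    by_cases h3 : t = s
    · rw [if_pos h3, if_pos (show t = s ∧ p = p from ⟨h3, rfl⟩)]
      by_cases h4 : s = p
      · rw [if_pos h4, if_pos h4.symm]
      · rw [if_neg h4, if_neg (fun h => h4 h.symm)]
    · rw [if_neg h3, if_neg (fun h : t = s ∧ p = p => h3 h.1)]
  · rw [if_neg h1, if_neg (fun h : t = s ∧ p = b => h1 h.2), zero_add]
    by_cases h2 : b < p
    · rw [if_pos h2]
      by_cases h3 : t = b ∧ s = p
      · rw [if_pos h3, if_pos ⟨⟨h3.1, h3.2.symm⟩, by rw [h3.2]; exact h2⟩]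
      · rw [if_neg h3, if_neg (fun h => h3 ⟨h.1.1, h.1.2.symm⟩)]
    · rw [if_neg h2, if_neg (fun h => h2 (by rw [h.1.2]; exact h.2))]

theorem sSCX (hDLL : S_DLL) (hDLY : S_DLY) : S_SCX := by
  intro N l q hP D
  ext ⟨a, r⟩ ⟨b, s⟩
  have hR : (sc (A N l q) (Scm N q) * X1 (Xm N l q) * sc (A N l q) (Scm N q)) (a, r) (b, s) =
      ∑ t : Fin (N + 1), ∑ p' : Fin (N + 1), ∑ p : Fin (N + 1),
        (Scm N q (a, r) (t, p) * Scm N q (t, p') (b, s)) • Xm N l q p p' := by
    rw [Matrix.mul_apply, Fintype.sum_prod_type]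
    apply Finset.sum_congr rfl
    intro t' _
    apply Finset.sum_congr rfl
    intro p' _
    rw [Matrix.mul_apply, Fintype.sum_prod_type, Finset.sum_mul]
    rw [Finset.sum_eq_single t']
    · rw [Finset.sum_mul]
      apply Finset.sum_congr rfl
      intro p _
      simp only [sc, X1, Matrix.map_apply, Matrix.of_apply, if_true]
      rw [← Algebra.smul_def, ← Algebra.commutes, ← Algebra.smul_def, smul_smul, mul_comm]
    · intro t _ ht
      rw [Finset.sum_eq_zero, zero_mul]
      intro p _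
      simp only [sc, X1, Matrix.map_apply, Matrix.of_apply]
      rw [if_neg ht, mul_zero]
    · intro h
      exact absurd (Finset.mem_univ _) h
  have hL : Phi D.dl (Xm N l q) (a, r) (b, s) =
      ∑ t : Fin (N + 1), ∑ p' : Fin (N + 1), ∑ p : Fin (N + 1),
        (Scm N q (a, r) (t, p) * Scm N q (t, p') (b, s)) • Xm N l q p p' := by
    change D.dl (Xm N l q a b) r s = _
    have hX : ∀ x y : Fin (N + 1), Xm N l q x y = ∑ c : Fin (N + 1),
        Yent q (gF N l q) (gK N l q) x c * Lent q (gE N l q) (gK N l q) c y := by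
      intro x y
      rw [Xm, Matrix.mul_apply]
      rfl
    have h1 : D.dl (Xm N l q a b) r s = ∑ c : Fin (N + 1), ∑ t : Fin (N + 1),
        D.dl (Yent q (gF N l q) (gK N l q) a c) r t *
          D.dl (Lent q (gE N l q) (gK N l q) c b) t s := by
      rw [hX, map_sum, Matrix.sum_apply]
      apply Finset.sum_congr rfl
      intro c _
      rw [map_mul, Matrix.mul_apply]
    rw [h1, Finset.sum_comm]
    apply Finset.sum_congr rfl
    intro t _
    have h2 : ∀ c : Fin (N + 1), D.dl (Yent q (gF N l q) (gK N l q) a c) r t *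
          D.dl (Lent q (gE N l q) (gK N l q) c b) t s =
        ∑ p' : Fin (N + 1), ∑ p : Fin (N + 1),
          (Scm N q (a, r) (t, p) * Scm N q (t, p') (b, s)) •
            (Yent q (gF N l q) (gK N l q) p c * Lent q (gE N l q) (gK N l q) c p') := by
      intro c
      rw [hDLY N l q hP D a c r t, hDLL N l q hP D c b t s, Finset.mul_sum]
      apply Finset.sum_congr rfl
      intro p' _
      rw [Finset.sum_mul]
      apply Finset.sum_congr rfl
      intro p _
      rw [vy_eq, vl_eq, smul_mul_smul_comm]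
    rw [Finset.sum_congr rfl fun c _ => h2 c, Finset.sum_comm]
    apply Finset.sum_congr rfl
    intro p' _
    rw [Finset.sum_comm]
    apply Finset.sum_congr rfl
    intro p _
    rw [hX, Finset.smul_sum]
  rw [hR, hL]

end

end Pool.Agent.Helper97.SQ
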