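import Pool.Agent.Helper84.SQ.GoalsD

/-!
# PACKET SQ-KKF: the minimiser in a slice far away
-/

namespace Pool.Agent.Helper97.SQ

open Pool.Agent.Helper84.SQ

theorem linI (hL : LinStmt) {ι : Type} [Fintype ι] (k H : ℕ) (S : ι → ι → ℤ)
    (hc : Fintype.card ι ≤ k) (hH : 1 ≤ H) (hS : ∀ i j, |S i j| ≤ (H : ℤ)) :
    ∃ (D : ℕ) (P : ι → ι → ℤ), 1 ≤ D ∧ D ≤ (k * H) ^ k ∧
      (∀ i j, |P i j| ≤ (((k * H) ^ k : ℕ) : ℤ)) ∧
      ∀ (z : ι → ℝ) (i : ι), ∑ j, (S i j : ℝ) * ∑ l, (P j l : ℝ) * (∑ j', (S l j' : ℝ) * z j') =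
        D * ∑ j', (S i j' : ℝ) * z j' := by
  classical
  let e := Fintype.equivFin ι
  obtain ⟨D, P, h1, h2, h3, h4⟩ := hL (Fintype.card ι) (Fintype.card ι) k H
    (fun i j => S (e.symm i) (e.symm j)) hc hc hH (fun i j => hS _ _)
  refine ⟨D, fun i j => P (e i) (e j), h1, h2, fun i j => h3 _ _, fun z i => ?_⟩
  have h5 := h4 (fun j => z (e.symm j)) (e i)
  have hsum : ∀ f : ι → ℝ, ∑ j, f j = ∑ j, f (e.symm j) := fun f => (Equiv.sum_comp e.symm f).symm
  have h6 : ∀ l : ι, ∑ j', (S l j' : ℝ) * z j' =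
      ∑ j', (S (e.symm (e l)) (e.symm j') : ℝ) * z (e.symm j') := by
    intro l
    rw [hsum]
    simp only [Equiv.symm_apply_apply]
  rw [hsum]
  simp_rw [h6]
  rw [← h5]
  refine Finset.sum_congr rfl fun j _ => ?_
  rw [Equiv.symm_apply_apply]
  congr 1
  rw [hsum]
  refine Finset.sum_congr rfl fun l _ => ?_
  rw [Equiv.apply_symm_apply, Equiv.apply_symm_apply]

theorem facI (hF : FacStmt) {κ : Type} [Fintype κ] {n : ℕ} (W : κ → Fin n → ℝ) (w : κ → ℝ)
    (q h : Fin n → ℝ) (hq : ∀ j, 0 ≤ q j)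
    (hr : ∀ r : Fin n → ℝ, (∀ i, ∑ j, W i j * r j ≤ 0) → (∀ j, q j ≠ 0 → r j = 0) →
      0 ≤ ∑ j, h j * r j)
    (hx : ∃ x : Fin n → ℝ, ∀ i, ∑ j, W i j * x j ≤ w i) :
    ∃ x : Fin n → ℝ, (∀ i, ∑ j, W i j * x j ≤ w i) ∧
      (∀ y : Fin n → ℝ, (∀ i, ∑ j, W i j * y j ≤ w i) →
        ∑ j, (q j * x j ^ 2 + h j * x j) ≤ ∑ j, (q j * y j ^ 2 + h j * y j)) ∧
      (∀ u : Fin n → ℝ, (∀ i, ∑ j, W i j * x j = w i → ∑ j, W i j * u j = 0) →
        (∀ j, q j ≠ 0 → u j = 0) → ∀ i, ∑ j, W i j * u j = 0) ∧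
      ∃ lam : κ → ℝ, (∀ i, ∑ j, W i j * x j ≠ w i → lam i = 0) ∧
        ∀ j, 2 * q j * x j + h j = ∑ i, lam i * W i j := by
  classical
  let e := Fintype.equivFin κ
  obtain ⟨x, h1, h2, h3, lam, h4, h5⟩ := hF (Fintype.card κ) n (fun i j => W (e.symm i) j)
    (fun i => w (e.symm i)) q h hq
    (fun r hr1 hr2 => hr r (fun i => by simpa using hr1 (e i)) hr2)
    (by obtain ⟨x, hx⟩ := hx; exact ⟨x, fun i => hx _⟩)
  refine ⟨x, fun i => by simpa using h1 (e i), fun y hy => h2 y fun i => hy _, ?_, fun i => lam (e i),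
    fun i hi => h4 (e i) (by simpa using hi), fun j => ?_⟩
  · intro u hu1 hu2 i
    simpa using h3 u (fun i hi => hu1 _ hi) hu2 (e i)
  · rw [h5 j]
    rw [← Equiv.sum_comp e]
    refine Finset.sum_congr rfl fun i _ => ?_
    rw [Equiv.symm_apply_apply]

/-- The numerical bounds. -/
theorem num1 {s : ℕ} (hs : 2 ≤ s) : 2 * s + 1 ≤ 2 ^ (s + 1) := by
  induction s, hs using Nat.le_induction with
  | base => norm_num
  | succ s hs ih =>
    rw [pow_succ]
    omega

theorem num2 {s : ℕ} (hs : 2 ≤ s) :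
    ((2 * s + 1) * 2 ^ (s + 1)) ^ (2 * s + 1) ≤ 2 ^ (4 * s ^ 2 + 6 * s + 2) := by
  have h1 : (2 * s + 1) * 2 ^ (s + 1) ≤ 2 ^ (2 * s + 2) := by
    calc (2 * s + 1) * 2 ^ (s + 1) ≤ 2 ^ (s + 1) * 2 ^ (s + 1) :=
          Nat.mul_le_mul_right _ (num1 hs)
      _ = 2 ^ (2 * s + 2) := by rw [← pow_add]; congr 1; omega
  calc ((2 * s + 1) * 2 ^ (s + 1)) ^ (2 * s + 1) ≤ (2 ^ (2 * s + 2)) ^ (2 * s + 1) :=
        Nat.pow_le_pow_left h1 _
    _ = 2 ^ (4 * s ^ 2 + 6 * s + 2) := by rw [← pow_mul]; congr 1; ring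

theorem kkf (hF : FacStmt) (hL : LinStmt) : KkfStmt := by
  classical
  intro m n s W w q h v σ τ hS hqv hσ hτ hNB hx
  obtain ⟨xi, hxi, hxiv⟩ := hx
  obtain ⟨hs2, hms, hns, hW1, hws, hq0, hqs, hhs⟩ := hS
  -- FAC
  obtain ⟨x0, hx1, hx2, hx3, lam, hl1, hl2⟩ := facI hF (κ := Fin m ⊕ Bool)
    (Sum.elim (fun i j => (W i j : ℝ)) (fun b j => if j = v then (if b then 1 else -1) else 0))
    (Sum.elim (fun i => (w i : ℝ)) (fun b => if b then ((σ * τ : ℤ) : ℝ) else -((σ * τ : ℤ) : ℝ)))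
    (fun j => (q j : ℝ)) (fun j => (h j : ℝ)) (fun j => by exact_mod_cast hq0 j)
    (by
      intro r hr1 hr2
      refine hNB r (fun i => by simpa using hr1 (Sum.inl i)) ?_ (fun j hj => hr2 j (by exact_mod_cast hj))
      have h1 := hr1 (Sum.inr true)
      have h2 := hr1 (Sum.inr false)
      simp only [Sum.elim_inr, if_true, Bool.false_eq_true, if_false, ite_mul, one_mul, zero_mul,
        neg_mul, Finset.sum_ite_eq', Finset.mem_univ] at h1 h2
      linarith)
    (by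
      refine ⟨xi, fun i => ?_⟩
      rcases i with i | b
      · exact hxi i
      · cases b
        · simp [hxiv]
        · simp [hxiv])
  have hx1W : ∀ i, ∑ j, (W i j : ℝ) * x0 j ≤ w i := fun i => by simpa using hx1 (Sum.inl i)
  have hx0v : x0 v = ((σ * τ : ℤ) : ℝ) := by
    have h1 := hx1 (Sum.inr true)
    have h2 := hx1 (Sum.inr false)
    simp only [Sum.elim_inr, if_true, Bool.false_eq_true, if_false, ite_mul, one_mul, zero_mul,
      neg_mul, Finset.sum_ite_eq', Finset.mem_univ] at h1 h2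
    linarith
  -- the linear system
  let J : Fin m → Prop := fun i => ∑ j, (W i j : ℝ) * x0 j = w i
  let S : (Fin n ⊕ (Fin m ⊕ Unit)) → (Fin n ⊕ (Fin m ⊕ Unit)) → ℤ :=
    Sum.elim (fun j => Sum.elim (fun j' => if j' = j then 2 * q j else 0)
        (Sum.elim (fun i => -W i j) (fun _ => if j = v then -1 else 0)))
      (Sum.elim (fun i => if J i then Sum.elim (fun j => W i j) (fun _ => 0)
        else Sum.elim (fun _ => 0) (Sum.elim (fun i' => if i' = i then 1 else 0) (fun _ => 0)))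
        (fun _ => Sum.elim (fun j => if j = v then 1 else 0) (fun _ => 0)))
  let b0 : (Fin n ⊕ (Fin m ⊕ Unit)) → ℤ :=
    Sum.elim (fun j => -h j) (Sum.elim (fun i => if J i then w i else 0) (fun _ => 0))
  let b1 : (Fin n ⊕ (Fin m ⊕ Unit)) → ℤ := Sum.elim (fun _ => 0) (Sum.elim (fun _ => 0) (fun _ => σ))
  -- the rows of the system
  have rowG : ∀ (z : (Fin n ⊕ (Fin m ⊕ Unit)) → ℝ) (j : Fin n),
      ∑ l, (S (Sum.inl j) l : ℝ) * z l = 2 * q j * z (Sum.inl j)
        - ∑ i, z (Sum.inr (Sum.inl i)) * W i j - (if j = v then z (Sum.inr (Sum.inr ())) else 0) := by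
    intro z j
    simp only [Fintype.sum_sum_type, S, Sum.elim_inl, Sum.elim_inr, Int.cast_ite, Int.cast_mul,
      Int.cast_ofNat, Int.cast_zero, Int.cast_neg, Int.cast_one, ite_mul, zero_mul,
      Finset.sum_ite_eq', Finset.mem_univ, if_true, Finset.univ_unique, Finset.sum_singleton]
    have : ∑ i, -(W i j : ℝ) * z (Sum.inr (Sum.inl i)) = -∑ i, z (Sum.inr (Sum.inl i)) * W i j := by
      rw [← Finset.sum_neg_distrib]
      exact Finset.sum_congr rfl fun i _ => by ring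
    rw [this]
    split_ifs <;> simp <;> ring
  have rowT : ∀ (z : (Fin n ⊕ (Fin m ⊕ Unit)) → ℝ) (i : Fin m), J i →
      ∑ l, (S (Sum.inr (Sum.inl i)) l : ℝ) * z l = ∑ j, (W i j : ℝ) * z (Sum.inl j) := by
    intro z i hi
    simp only [Fintype.sum_sum_type, S, Sum.elim_inl, Sum.elim_inr, if_pos hi, Int.cast_zero,
      zero_mul, Finset.sum_const_zero, add_zero]
  have rowN : ∀ (z : (Fin n ⊕ (Fin m ⊕ Unit)) → ℝ) (i : Fin m), ¬ J i →
      ∑ l, (S (Sum.inr (Sum.inl i)) l : ℝ) * z l = z (Sum.inr (Sum.inl i)) := by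
    intro z i hi
    simp only [Fintype.sum_sum_type, S, Sum.elim_inl, Sum.elim_inr, if_neg hi, Int.cast_zero,
      zero_mul, Finset.sum_const_zero, add_zero, zero_add, Int.cast_ite, Int.cast_one, ite_mul,
      one_mul, Finset.sum_ite_eq', Finset.mem_univ, if_true]
  have rowV : ∀ (z : (Fin n ⊕ (Fin m ⊕ Unit)) → ℝ),
      ∑ l, (S (Sum.inr (Sum.inr ())) l : ℝ) * z l = z (Sum.inl v) := by
    intro z
    simp only [Fintype.sum_sum_type, S, Sum.elim_inl, Sum.elim_inr, Int.cast_zero,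
      zero_mul, Finset.sum_const_zero, add_zero, Int.cast_ite, Int.cast_one, ite_mul,
      one_mul, Finset.sum_ite_eq', Finset.mem_univ, if_true]
  -- bounds
  have hSb : ∀ i j, |S i j| ≤ ((2 ^ (s + 1) : ℕ) : ℤ) := by
    have hone : (1 : ℤ) ≤ ((2 ^ (s + 1) : ℕ) : ℤ) := by exact_mod_cast Nat.one_le_two_pow
    have hzero : (0 : ℤ) ≤ ((2 ^ (s + 1) : ℕ) : ℤ) := by positivity
    rintro (j | i | u) (j' | i' | u')
    · simp only [S, Sum.elim_inl]
      split_ifs
      · rw [abs_of_nonneg (by have := hq0 j; linarith)]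
        have h1 := hqs j
        push_cast
        rw [pow_succ]
        linarith
      · simpa using hzero
    · simp only [S, Sum.elim_inl, Sum.elim_inr, abs_neg]
      exact (hW1 _ _).trans hone
    · simp only [S, Sum.elim_inl, Sum.elim_inr]
      split_ifs
      · simpa using hone
      · simpa using hzero
    · simp only [S, Sum.elim_inl, Sum.elim_inr]
      split_ifs
      · exact (hW1 _ _).trans hone
      · simpa using hzero
    · simp only [S, Sum.elim_inl, Sum.elim_inr]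
      split_ifs
      · simpa using hzero
      · simp only [Sum.elim_inr, Sum.elim_inl]
        split_ifs
        · simpa using hone
        · simpa using hzero
    · simp only [S, Sum.elim_inl, Sum.elim_inr]
      split_ifs <;> simpa using hzero
    · simp only [S, Sum.elim_inl, Sum.elim_inr]
      split_ifs
      · simpa using hone
      · simpa using hzero
    · simpa [S] using hzero
    · simpa [S] using hzero
  have hb0 : ∀ i, |b0 i| ≤ 2 ^ s := by
    have hp : (0 : ℤ) ≤ 2 ^ s := by positivity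
    rintro (j | i | u)
    · simpa [b0] using hhs j
    · simp only [b0, Sum.elim_inl, Sum.elim_inr]
      split_ifs
      · exact hws i
      · simpa using hp
    · simpa [b0] using hp
  have hb1 : ∀ i, |b1 i| ≤ 2 ^ s := by
    have hp : (1 : ℤ) ≤ 2 ^ s := one_le_pow₀ (by norm_num)
    have hp0 : (0 : ℤ) ≤ 2 ^ s := by positivity
    rintro (j | i | u)
    · simpa [b1] using hp0
    · simpa [b1] using hp0
    · simp only [b1, Sum.elim_inr]
      rcases hσ with rfl | rfl <;> simpa using hp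
  -- LIN
  have hcard : Fintype.card (Fin n ⊕ (Fin m ⊕ Unit)) ≤ 2 * s + 1 := by
    simp only [Fintype.card_sum, Fintype.card_fin, Fintype.card_unit]
    omega
  obtain ⟨D, P, hD1, hD2, hP, hSP⟩ := linI hL (2 * s + 1) (2 ^ (s + 1)) S hcard Nat.one_le_two_pow hSb
  have hB : ((2 * s + 1) * 2 ^ (s + 1)) ^ (2 * s + 1) ≤ 2 ^ (4 * s ^ 2 + 6 * s + 2) := num2 hs2
  have hPb : ∀ i j, |P i j| ≤ 2 ^ (4 * s ^ 2 + 6 * s + 2) := fun i j =>
    (hP i j).trans (by exact_mod_cast hB)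
  have hDb : D ≤ 2 ^ (4 * s ^ 2 + 6 * s + 2) := hD2.trans hB
  -- the solution
  let z0 : (Fin n ⊕ (Fin m ⊕ Unit)) → ℝ :=
    Sum.elim x0 (Sum.elim (fun i => lam (Sum.inl i)) (fun _ => lam (Sum.inr true) - lam (Sum.inr false)))
  have hz0 : ∀ i, ∑ l, (S i l : ℝ) * z0 l = (b0 i : ℝ) + τ * b1 i := by
    rintro (j | i | u)
    · rw [rowG]
      have h1 := hl2 j
      rw [Fintype.sum_sum_type, Fintype.sum_bool] at h1
      simp only [Sum.elim_inl, Sum.elim_inr, if_true, Bool.false_eq_true, if_false] at h1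
      simp only [z0, b0, b1, Sum.elim_inl, Sum.elim_inr, Int.cast_neg, Int.cast_zero, mul_zero, add_zero]
      split_ifs at h1 ⊢ with hjv
      · linarith
      · linarith
    · by_cases hi : J i
      · rw [rowT _ _ hi]
        simp only [z0, b0, b1, Sum.elim_inl, Sum.elim_inr, if_pos hi, Int.cast_zero, mul_zero, add_zero]
        exact hi
      · rw [rowN _ _ hi]
        simp only [z0, b0, b1, Sum.elim_inl, Sum.elim_inr, if_neg hi, Int.cast_zero, mul_zero, add_zero]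
        exact hl1 (Sum.inl i) (by simpa using hi)
    · rw [show (Sum.inr (Sum.inr u) : Fin n ⊕ (Fin m ⊕ Unit)) = Sum.inr (Sum.inr ()) from rfl, rowV]
      simp only [z0, b0, b1, Sum.elim_inl, Sum.elim_inr, Int.cast_zero, zero_add]
      rw [hx0v]
      push_cast
      ring
  -- the integer vectors
  let p0 : (Fin n ⊕ (Fin m ⊕ Unit)) → ℤ := fun i => ∑ l, P i l * b0 l
  let p1 : (Fin n ⊕ (Fin m ⊕ Unit)) → ℤ := fun i => ∑ l, P i l * b1 l
  have hpb : ∀ b : (Fin n ⊕ (Fin m ⊕ Unit)) → ℤ, (∀ i, |b i| ≤ 2 ^ s) → ∀ i,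
      |∑ l, P i l * b l| ≤ 2 ^ (4 * s ^ 2 + 8 * s + 3) := by
    intro b hb i
    calc |∑ l, P i l * b l| ≤ ∑ l, |P i l * b l| := Finset.abs_sum_le_sum_abs _ _
      _ ≤ ∑ _l : (Fin n ⊕ (Fin m ⊕ Unit)), (2 : ℤ) ^ (4 * s ^ 2 + 6 * s + 2) * 2 ^ s := by
          refine Finset.sum_le_sum fun l _ => ?_
          rw [abs_mul]
          exact mul_le_mul (hPb i l) (hb l) (abs_nonneg _) (by positivity)
      _ = (Fintype.card (Fin n ⊕ (Fin m ⊕ Unit)) : ℤ) * (2 ^ (4 * s ^ 2 + 6 * s + 2) * 2 ^ s) := by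
          rw [Finset.sum_const, Finset.card_univ, nsmul_eq_mul]
      _ ≤ 2 ^ (s + 1) * (2 ^ (4 * s ^ 2 + 6 * s + 2) * 2 ^ s) := by
          refine mul_le_mul_of_nonneg_right ?_ (by positivity)
          exact_mod_cast hcard.trans (num1 hs2)
      _ = 2 ^ (4 * s ^ 2 + 8 * s + 3) := by
          rw [← pow_add, ← pow_add]
          congr 1
          ring
  have hp0b : ∀ i, |p0 i| ≤ 2 ^ (4 * s ^ 2 + 8 * s + 3) := hpb b0 hb0
  have hp1b : ∀ i, |p1 i| ≤ 2 ^ (4 * s ^ 2 + 8 * s + 3) := hpb b1 hb1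
  have hrel : ∀ i, (∑ l, S i l * p0 l - D * b0 i) + τ * (∑ l, S i l * p1 l - D * b1 i) = 0 := by
    intro i
    have h1 := hSP z0 i
    simp_rw [hz0] at h1
    have h2 : (((∑ l, S i l * p0 l - D * b0 i) + τ * (∑ l, S i l * p1 l - D * b1 i) : ℤ) : ℝ) = 0 := by
      push_cast [p0, p1]
      have h3 : ∑ j, (S i j : ℝ) * ∑ l, (P j l : ℝ) * ((b0 l : ℝ) + τ * b1 l) =
          ∑ j, (S i j : ℝ) * (∑ l, (P j l : ℝ) * b0 l) +
            τ * ∑ j, (S i j : ℝ) * (∑ l, (P j l : ℝ) * b1 l) := by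
        rw [Finset.mul_sum, ← Finset.sum_add_distrib]
        refine Finset.sum_congr rfl fun j _ => ?_
        have h4 : ∑ l, (P j l : ℝ) * ((b0 l : ℝ) + τ * b1 l) =
            ∑ l, (P j l : ℝ) * b0 l + τ * ∑ l, (P j l : ℝ) * b1 l := by
          rw [Finset.mul_sum, ← Finset.sum_add_distrib]
          exact Finset.sum_congr rfl fun l _ => by ring
        rw [h4]
        ring
      rw [h3] at h1
      linear_combination h1
    exact_mod_cast h2
  have hd0 : ∀ i, |∑ l, S i l * p0 l - D * b0 i| < 2 ^ (12 * s ^ 2) := by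
    intro i
    have h1 : |∑ l, S i l * p0 l| ≤ 2 ^ (s + 1) * (2 ^ (s + 1) * 2 ^ (4 * s ^ 2 + 8 * s + 3)) := by
      calc |∑ l, S i l * p0 l| ≤ ∑ l, |S i l * p0 l| := Finset.abs_sum_le_sum_abs _ _
        _ ≤ ∑ _l : (Fin n ⊕ (Fin m ⊕ Unit)), (2 : ℤ) ^ (s + 1) * 2 ^ (4 * s ^ 2 + 8 * s + 3) := by
            refine Finset.sum_le_sum fun l _ => ?_
            rw [abs_mul]
            exact mul_le_mul (by exact_mod_cast hSb i l) (hp0b l) (abs_nonneg _) (by positivity)
        _ = (Fintype.card (Fin n ⊕ (Fin m ⊕ Unit)) : ℤ) * (2 ^ (s + 1) * 2 ^ (4 * s ^ 2 + 8 * s + 3)) := by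
            rw [Finset.sum_const, Finset.card_univ, nsmul_eq_mul]
        _ ≤ 2 ^ (s + 1) * (2 ^ (s + 1) * 2 ^ (4 * s ^ 2 + 8 * s + 3)) := by
            refine mul_le_mul_of_nonneg_right ?_ (by positivity)
            exact_mod_cast hcard.trans (num1 hs2)
    have h2 : |(D : ℤ) * b0 i| ≤ 2 ^ (4 * s ^ 2 + 6 * s + 2) * 2 ^ s := by
      rw [abs_mul]
      refine mul_le_mul ?_ (hb0 i) (abs_nonneg _) (by positivity)
      rw [abs_of_nonneg (by positivity)]
      exact_mod_cast hDb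
    have h3 : (2 : ℤ) ^ (s + 1) * (2 ^ (s + 1) * 2 ^ (4 * s ^ 2 + 8 * s + 3)) =
        2 ^ (4 * s ^ 2 + 10 * s + 5) := by
      rw [← pow_add, ← pow_add]
      congr 1
      ring
    have h4 : (2 : ℤ) ^ (4 * s ^ 2 + 6 * s + 2) * 2 ^ s ≤ 2 ^ (4 * s ^ 2 + 10 * s + 5) := by
      rw [← pow_add]
      exact pow_le_pow_right₀ (by norm_num) (by nlinarith)
    have h5 : (2 : ℤ) ^ (4 * s ^ 2 + 10 * s + 5) + 2 ^ (4 * s ^ 2 + 10 * s + 5) < 2 ^ (12 * s ^ 2) := by
      have h6 : (2 : ℤ) ^ (4 * s ^ 2 + 10 * s + 5) + 2 ^ (4 * s ^ 2 + 10 * s + 5) =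
          2 ^ (4 * s ^ 2 + 10 * s + 6) := by ring
      rw [h6]
      exact pow_lt_pow_right₀ (by norm_num) (by nlinarith)
    calc |∑ l, S i l * p0 l - D * b0 i| ≤ |∑ l, S i l * p0 l| + |(D : ℤ) * b0 i| := abs_sub _ _
      _ ≤ 2 ^ (4 * s ^ 2 + 10 * s + 5) + 2 ^ (4 * s ^ 2 + 10 * s + 5) := by
          rw [h3] at h1
          exact add_le_add h1 (h2.trans h4)
      _ < _ := h5
  have hτ' : (2 : ℤ) ^ (12 * s ^ 2) ≤ τ := hτ
  have hτpos : (0 : ℤ) < τ := lt_of_lt_of_le (by positivity) hτ'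
  have he1 : ∀ i, ∑ l, S i l * p1 l = D * b1 i := by
    intro i
    by_contra hne
    have hne' : ∑ l, S i l * p1 l - D * b1 i ≠ 0 := sub_ne_zero.2 hne
    have h1 : 1 ≤ |∑ l, S i l * p1 l - D * b1 i| := Int.one_le_abs hne'
    have h2 : ∑ l, S i l * p0 l - D * b0 i = -(τ * (∑ l, S i l * p1 l - D * b1 i)) := by
      have := hrel i
      linarith
    have h3 := hd0 i
    rw [h2, abs_neg, abs_mul, abs_of_pos hτpos] at h3
    nlinarith
  have he0 : ∀ i, ∑ l, S i l * p0 l = D * b0 i := by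
    intro i
    have h1 := hrel i
    rw [he1 i, sub_self, mul_zero, add_zero, sub_eq_zero] at h1
    exact h1
  have hD0 : (0 : ℝ) < D := by exact_mod_cast hD1
  -- the point
  let zz : (Fin n ⊕ (Fin m ⊕ Unit)) → ℝ := fun l => ((p0 l : ℝ) + τ * p1 l) / D
  have hzz : ∀ i, ∑ l, (S i l : ℝ) * zz l = (b0 i : ℝ) + τ * b1 i := by
    intro i
    have h0 : ∑ l, (S i l : ℝ) * p0 l = D * b0 i := by exact_mod_cast he0 i
    have h1 : ∑ l, (S i l : ℝ) * p1 l = D * b1 i := by exact_mod_cast he1 i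
    have h2 : ∑ l, (S i l : ℝ) * zz l =
        (∑ l, (S i l : ℝ) * p0 l + τ * ∑ l, (S i l : ℝ) * p1 l) / D := by
      rw [Finset.mul_sum, ← Finset.sum_add_distrib, Finset.sum_div]
      exact Finset.sum_congr rfl fun l _ => by simp only [zz]; ring
    rw [h2, h0, h1]
    field_simp
  set X : Fin n → ℤ := fun j => p0 (Sum.inl j) with hX
  set Y : Fin n → ℤ := fun j => p1 (Sum.inl j) with hY
  have hpt : ∀ j, pt D X Y τ j = zz (Sum.inl j) := fun j => rfl
  have hexp : 4 * s ^ 2 + 8 * s + 3 ≤ 12 * s ^ 2 := by nlinarith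
  have hexpD : 4 * s ^ 2 + 6 * s + 2 ≤ 12 * s ^ 2 := by nlinarith
  -- facts about the point
  have hXv : X v = 0 := by
    have h1 := he0 (Sum.inr (Sum.inr ()))
    have h2 : (∑ l, (S (Sum.inr (Sum.inr ())) l : ℝ) * (p0 l : ℝ)) = p0 (Sum.inl v) :=
      rowV (fun l => (p0 l : ℝ))
    have h3 : (∑ l, (S (Sum.inr (Sum.inr ())) l : ℝ) * (p0 l : ℝ)) = 0 := by
      have : ((∑ l, S (Sum.inr (Sum.inr ())) l * p0 l : ℤ) : ℝ) = 0 := by
        rw [h1]; simp [b0]
      exact_mod_cast this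
    have h4 : ((p0 (Sum.inl v) : ℤ) : ℝ) = 0 := h2.symm.trans h3
    exact_mod_cast h4
  have hYv : Y v = σ * D := by
    have h1 := he1 (Sum.inr (Sum.inr ()))
    have h2 : (∑ l, (S (Sum.inr (Sum.inr ())) l : ℝ) * (p1 l : ℝ)) = p1 (Sum.inl v) :=
      rowV (fun l => (p1 l : ℝ))
    have h3 : (∑ l, (S (Sum.inr (Sum.inr ())) l : ℝ) * (p1 l : ℝ)) = D * σ := by
      have : ((∑ l, S (Sum.inr (Sum.inr ())) l * p1 l : ℤ) : ℝ) = D * σ := by
        rw [h1]; simp [b1]
      exact_mod_cast this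
    have h4 : ((p1 (Sum.inl v) : ℤ) : ℝ) = ((D * σ : ℤ) : ℝ) := by
      rw [← h2, h3]; push_cast; ring
    have h5 : p1 (Sum.inl v) = D * σ := by exact_mod_cast h4
    rw [hY]
    simp only
    rw [h5]
    ring
  set x : Fin n → ℝ := pt D X Y τ with hxdef
  have hxT : ∀ i, J i → ∑ j, (W i j : ℝ) * x j = w i := by
    intro i hi
    have h1 := hzz (Sum.inr (Sum.inl i))
    rw [rowT _ _ hi] at h1
    simp only [b0, b1, Sum.elim_inl, Sum.elim_inr, if_pos hi, Int.cast_zero, mul_zero, add_zero] at h1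
    exact h1
  have hxN : ∀ i, ¬ J i → zz (Sum.inr (Sum.inl i)) = 0 := by
    intro i hi
    have h1 := hzz (Sum.inr (Sum.inl i))
    rw [rowN _ _ hi] at h1
    simpa only [b0, b1, Sum.elim_inl, Sum.elim_inr, if_neg hi, Int.cast_zero, mul_zero, add_zero]
      using h1
  have hxv : x v = ((σ * τ : ℤ) : ℝ) := by
    have h1 := hzz (Sum.inr (Sum.inr ()))
    rw [rowV] at h1
    simp only [b0, b1, Sum.elim_inr, Int.cast_zero, zero_add] at h1
    rw [hpt, h1]
    push_cast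
    ring
  have hxG : ∀ j, 2 * q j * x j + h j = ∑ i, zz (Sum.inr (Sum.inl i)) * W i j +
      (if j = v then zz (Sum.inr (Sum.inr ())) else 0) := by
    intro j
    have h1 := hzz (Sum.inl j)
    rw [rowG] at h1
    simp only [b0, b1, Sum.elim_inl, Int.cast_neg, Int.cast_zero, mul_zero, add_zero] at h1
    rw [hpt]
    linarith
  -- a general identity: expansion of the objective
  have hexpand : ∀ a b : Fin n → ℝ, gR q h b - gR q h a =
      ∑ j, (q j : ℝ) * (b j - a j) ^ 2 + ∑ j, (2 * q j * a j + h j) * (b j - a j) := by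
    intro a b
    unfold gR
    rw [← Finset.sum_sub_distrib, ← Finset.sum_add_distrib]
    exact Finset.sum_congr rfl fun j _ => by ring
  have hswap : ∀ (c : Fin m → ℝ) (d : Fin n → ℝ),
      ∑ j, (∑ i, c i * (W i j : ℝ)) * d j = ∑ i, c i * ∑ j, (W i j : ℝ) * d j := by
    intro c d
    simp_rw [Finset.sum_mul, Finset.mul_sum]
    rw [Finset.sum_comm]
    exact Finset.sum_congr rfl fun i _ => Finset.sum_congr rfl fun j _ => by ring
  have hu : ∀ i, J i → ∑ j, (W i j : ℝ) * (x j - x0 j) = 0 := by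
    intro i hi
    have h1 : ∑ j, (W i j : ℝ) * (x j - x0 j) = ∑ j, (W i j : ℝ) * x j - ∑ j, (W i j : ℝ) * x0 j := by
      rw [← Finset.sum_sub_distrib]
      exact Finset.sum_congr rfl fun j _ => by ring
    rw [h1, hxT i hi, show ∑ j, (W i j : ℝ) * x0 j = w i from hi, sub_self]
  have huv : x v - x0 v = 0 := by rw [hxv, hx0v, sub_self]
  -- first comparison: at x
  have hcmp1 : gR q h x0 - gR q h x = ∑ j, (q j : ℝ) * (x0 j - x j) ^ 2 := by
    rw [hexpand x x0]
    have h1 : ∑ j, (2 * q j * x j + h j) * (x0 j - x j) = 0 := by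
      simp_rw [hxG, add_mul]
      rw [Finset.sum_add_distrib, hswap]
      have h2 : ∑ i, zz (Sum.inr (Sum.inl i)) * ∑ j, (W i j : ℝ) * (x0 j - x j) = 0 := by
        refine Finset.sum_eq_zero fun i _ => ?_
        by_cases hi : J i
        · have h3 := hu i hi
          have h4 : ∑ j, (W i j : ℝ) * (x0 j - x j) = -∑ j, (W i j : ℝ) * (x j - x0 j) := by
            rw [← Finset.sum_neg_distrib]
            exact Finset.sum_congr rfl fun j _ => by ring
          rw [h4, h3]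
          simp
        · rw [hxN i hi, zero_mul]
      rw [h2, zero_add]
      simp only [ite_mul, zero_mul, Finset.sum_ite_eq', Finset.mem_univ, if_true]
      have : x0 v - x v = 0 := by linarith
      rw [this, mul_zero]
    rw [h1, add_zero]
  -- second comparison: at x0
  have hcmp2 : gR q h x - gR q h x0 = ∑ j, (q j : ℝ) * (x j - x0 j) ^ 2 := by
    rw [hexpand x0 x]
    have h1 : ∑ j, (2 * q j * x0 j + h j) * (x j - x0 j) = 0 := by
      have hl2' : ∀ j, 2 * (q j : ℝ) * x0 j + h j = ∑ i, lam (Sum.inl i) * W i j +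
          (if j = v then lam (Sum.inr true) - lam (Sum.inr false) else 0) := by
        intro j
        have h2 := hl2 j
        rw [Fintype.sum_sum_type, Fintype.sum_bool] at h2
        simp only [Sum.elim_inl, Sum.elim_inr, if_true, Bool.false_eq_true, if_false] at h2
        split_ifs at h2 ⊢ with hjv
        · linarith
        · linarith
      simp_rw [hl2', add_mul]
      rw [Finset.sum_add_distrib, hswap]
      have h2 : ∑ i, lam (Sum.inl i) * ∑ j, (W i j : ℝ) * (x j - x0 j) = 0 := by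
        refine Finset.sum_eq_zero fun i _ => ?_
        by_cases hi : J i
        · rw [hu i hi, mul_zero]
        · rw [hl1 (Sum.inl i) (by simpa using hi), zero_mul]
      rw [h2, zero_add]
      simp only [ite_mul, zero_mul, Finset.sum_ite_eq', Finset.mem_univ, if_true]
      rw [huv, mul_zero]
    rw [h1, add_zero]
  have hsq : ∑ j, (q j : ℝ) * (x0 j - x j) ^ 2 = ∑ j, (q j : ℝ) * (x j - x0 j) ^ 2 :=
    Finset.sum_congr rfl fun j _ => by ring
  have hzero : ∑ j, (q j : ℝ) * (x j - x0 j) ^ 2 = 0 := by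
    rw [hsq] at hcmp1
    linarith
  have hgeq : gR q h x = gR q h x0 := by linarith
  have hterm : ∀ j, (q j : ℝ) * (x j - x0 j) ^ 2 = 0 := by
    intro j
    have hnn : ∀ j ∈ Finset.univ, 0 ≤ (q j : ℝ) * (x j - x0 j) ^ 2 := fun j _ =>
      mul_nonneg (by exact_mod_cast hq0 j) (sq_nonneg _)
    exact (Finset.sum_eq_zero_iff_of_nonneg hnn).1 hzero j (Finset.mem_univ j)
  have hallu : ∀ i, ∑ j, (W i j : ℝ) * (x j - x0 j) = 0 := by
    intro i
    have h1 := hx3 (fun j => x j - x0 j) ?_ ?_ (Sum.inl i)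
    · simpa using h1
    · rintro (i | b) hi
      · simpa using hu i (by simpa using hi)
      · cases b
        · simp only [Sum.elim_inr, Bool.false_eq_true, if_false, ite_mul, zero_mul, neg_mul, one_mul,
            Finset.sum_ite_eq', Finset.mem_univ, if_true, huv, neg_zero]
        · simp only [Sum.elim_inr, ite_mul, zero_mul, one_mul,
            Finset.sum_ite_eq', Finset.mem_univ, if_true, huv]
    · intro j hj
      rcases mul_eq_zero.1 (hterm j) with h2 | h2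
      · exact absurd h2 hj
      · exact pow_eq_zero_iff (two_ne_zero) |>.1 h2
  have hxF : x ∈ FeaR W w := by
    intro i
    have h1 : ∑ j, (W i j : ℝ) * x j = ∑ j, (W i j : ℝ) * x0 j := by
      have h2 := hallu i
      have h3 : ∑ j, (W i j : ℝ) * (x j - x0 j) = ∑ j, (W i j : ℝ) * x j - ∑ j, (W i j : ℝ) * x0 j := by
        rw [← Finset.sum_sub_distrib]
        exact Finset.sum_congr rfl fun j _ => by ring
      linarith
    rw [h1]
    exact hx1W i
  refine ⟨D, X, Y, hD1, hDb.trans (Nat.pow_le_pow_right (by norm_num) hexpD), fun j => ?_,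
    fun j => ?_, hXv, hYv, hxF, ?_⟩
  · exact (hp0b (Sum.inl j)).trans (pow_le_pow_right₀ (by norm_num) hexp)
  · exact (hp1b (Sum.inl j)).trans (pow_le_pow_right₀ (by norm_num) hexp)
  · intro y hy hyv
    rw [← hxdef, hgeq]
    unfold gR
    refine hx2 y fun i => ?_
    rcases i with i | b
    · simpa using hy i
    · cases b
      · simp [hyv]
      · simp [hyv]

end Pool.Agent.Helper97.SQ
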